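import Pool.Agent.Helper15.FC.St2

set_option autoImplicit false

/-!
Module M2K of project FC of helper15: moments of the L-functions.
`hTRV` is not needed: the number of characters is finite, and the tail is summed over the values
of the integer part of `log |L(u)|` that occur.
-/

namespace Pool.Agent.Helper57.FC

open Pool.Agent.Helper15.FC Polynomial

private theorem sum_exp_neg_le (V : Finset ℕ) : ∑ v ∈ V, Real.exp (-(v : ℝ)) ≤ 2 := by
  have h1 : ∀ v : ℕ, Real.exp (-(v : ℝ)) ≤ (1 / 2 : ℝ) ^ v := by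
    intro v
    have h2 : (2 : ℝ) ≤ Real.exp 1 := by
      have := Real.add_one_le_exp (1 : ℝ)
      linarith
    have h3 : Real.exp (-(v : ℝ)) = (Real.exp 1)⁻¹ ^ v := by
      rw [inv_pow, ← Real.exp_nat_mul, mul_one, Real.exp_neg]
    rw [h3]
    refine pow_le_pow_left₀ (inv_nonneg.2 (Real.exp_pos 1).le) ?_ v
    rw [one_div]
    exact inv_anti₀ (by norm_num) h2
  calc ∑ v ∈ V, Real.exp (-(v : ℝ)) ≤ ∑ v ∈ V, (1 / 2 : ℝ) ^ v :=
        Finset.sum_le_sum fun v _ => h1 v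
    _ ≤ ∑' v : ℕ, (1 / 2 : ℝ) ^ v :=
        Summable.sum_le_tsum V (fun v _ => by positivity) summable_geometric_two
    _ = 2 := tsum_geometric_two

private theorem tail_sum {α : Type} (S : Finset α) (g : α → ℝ) (k v0 : ℕ) (U : ℝ)
    (hg : ∀ ξ ∈ S, 0 ≤ g ξ) (hcard : (S.card : ℝ) ≤ U)
    (htail : ∀ v : ℕ, v0 ≤ v → ∀ T : Finset α, T ⊆ S → (∀ ξ ∈ T, Real.exp v ≤ g ξ) →
      (T.card : ℝ) ≤ U * (2 * Real.exp (-(2 * k + 1) * v))) :
    ∑ ξ ∈ S, g ξ ^ (2 * k) ≤ U * (Real.exp (2 * k * v0) + 4 * Real.exp (2 * k)) := by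
  classical
  have hU : 0 ≤ U := le_trans (Nat.cast_nonneg _) hcard
  rw [← Finset.sum_filter_add_sum_filter_not S (fun ξ => g ξ < Real.exp v0)]
  have hA : ∑ ξ ∈ S.filter (fun ξ => g ξ < Real.exp v0), g ξ ^ (2 * k) ≤
      U * Real.exp (2 * k * v0) := by
    have h1 : ∀ ξ ∈ S.filter (fun ξ => g ξ < Real.exp v0), g ξ ^ (2 * k) ≤
        Real.exp (2 * k * v0) := by
      intro ξ hξ
      rw [Finset.mem_filter] at hξ
      have h2 := pow_le_pow_left₀ (hg ξ hξ.1) hξ.2.le (2 * k)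
      refine h2.trans (le_of_eq ?_)
      rw [← Real.exp_nat_mul]
      congr 1
      push_cast
      ring
    calc ∑ ξ ∈ S.filter (fun ξ => g ξ < Real.exp v0), g ξ ^ (2 * k)
        ≤ ∑ _ξ ∈ S.filter (fun ξ => g ξ < Real.exp v0), Real.exp (2 * k * v0) :=
          Finset.sum_le_sum h1
      _ = ((S.filter (fun ξ => g ξ < Real.exp v0)).card : ℝ) * Real.exp (2 * k * v0) := by
          rw [Finset.sum_const, nsmul_eq_mul]
      _ ≤ U * Real.exp (2 * k * v0) := by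
          refine mul_le_mul_of_nonneg_right (le_trans ?_ hcard) (Real.exp_pos _).le
          exact_mod_cast Finset.card_filter_le _ _
  set B := S.filter (fun ξ => ¬ g ξ < Real.exp v0) with hBdef
  have hB : ∑ ξ ∈ B, g ξ ^ (2 * k) ≤ U * (4 * Real.exp (2 * k)) := by
    have hfl : ∀ ξ ∈ B, v0 ≤ ⌊Real.log (g ξ)⌋₊ ∧ Real.exp (⌊Real.log (g ξ)⌋₊ : ℕ) ≤ g ξ ∧
        g ξ ≤ Real.exp ((⌊Real.log (g ξ)⌋₊ : ℕ) + 1) := by
      intro ξ hξ
      rw [hBdef, Finset.mem_filter, not_lt] at hξ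
      have hpos : 0 < g ξ := lt_of_lt_of_le (Real.exp_pos _) hξ.2
      have hlog : (v0 : ℝ) ≤ Real.log (g ξ) := (Real.le_log_iff_exp_le hpos).2 hξ.2
      have hlog0 : 0 ≤ Real.log (g ξ) := le_trans (Nat.cast_nonneg _) hlog
      refine ⟨Nat.le_floor hlog, ?_, ?_⟩
      · rw [← Real.le_log_iff_exp_le hpos]
        exact Nat.floor_le hlog0
      · rw [← Real.log_le_iff_le_exp hpos]
        exact (Nat.lt_floor_add_one _).le
    rw [← Finset.sum_fiberwise_of_maps_to (s := B) (t := B.image (fun ξ => ⌊Real.log (g ξ)⌋₊))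
      (g := fun ξ => ⌊Real.log (g ξ)⌋₊) (fun ξ hξ => Finset.mem_image_of_mem _ hξ)]
    have h1 : ∀ v ∈ B.image (fun ξ => ⌊Real.log (g ξ)⌋₊),
        ∑ ξ ∈ B.filter (fun ξ => ⌊Real.log (g ξ)⌋₊ = v), g ξ ^ (2 * k) ≤
          U * (2 * Real.exp (2 * k)) * Real.exp (-(v : ℝ)) := by
      intro v hv
      rw [Finset.mem_image] at hv
      obtain ⟨ξ0, hξ0, hξ0v⟩ := hv
      have hv0 : v0 ≤ v := by
        rw [← hξ0v]
        exact (hfl ξ0 hξ0).1
      have h2 : ∀ ξ ∈ B.filter (fun ξ => ⌊Real.log (g ξ)⌋₊ = v), g ξ ^ (2 * k) ≤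
          Real.exp (2 * k * (v + 1)) := by
        intro ξ hξ
        rw [Finset.mem_filter] at hξ
        have h3 := (hfl ξ hξ.1).2.2
        rw [hξ.2] at h3
        have hS : ξ ∈ S := (Finset.mem_filter.1 hξ.1).1
        have h4 := pow_le_pow_left₀ (hg ξ hS) h3 (2 * k)
        refine h4.trans (le_of_eq ?_)
        rw [← Real.exp_nat_mul]
        congr 1
        push_cast
        ring
      have hc : ((B.filter (fun ξ => ⌊Real.log (g ξ)⌋₊ = v)).card : ℝ) ≤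
          U * (2 * Real.exp (-(2 * k + 1) * v)) := by
        refine htail v hv0 _ ?_ ?_
        · intro ξ hξ
          exact (Finset.mem_filter.1 (Finset.mem_filter.1 hξ).1).1
        · intro ξ hξ
          rw [Finset.mem_filter] at hξ
          have h3 := (hfl ξ hξ.1).2.1
          rw [hξ.2] at h3
          exact h3
      calc ∑ ξ ∈ B.filter (fun ξ => ⌊Real.log (g ξ)⌋₊ = v), g ξ ^ (2 * k)
          ≤ ∑ _ξ ∈ B.filter (fun ξ => ⌊Real.log (g ξ)⌋₊ = v), Real.exp (2 * k * (v + 1)) :=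
            Finset.sum_le_sum h2
        _ = ((B.filter (fun ξ => ⌊Real.log (g ξ)⌋₊ = v)).card : ℝ) *
            Real.exp (2 * k * (v + 1)) := by
            rw [Finset.sum_const, nsmul_eq_mul]
        _ ≤ (U * (2 * Real.exp (-(2 * k + 1) * v))) * Real.exp (2 * k * (v + 1)) :=
            mul_le_mul_of_nonneg_right hc (Real.exp_pos _).le
        _ = U * (2 * Real.exp (2 * k)) * Real.exp (-(v : ℝ)) := by
            have h5 : Real.exp (-(2 * k + 1) * v) * Real.exp (2 * k * (v + 1)) =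
                Real.exp (2 * k) * Real.exp (-(v : ℝ)) := by
              rw [← Real.exp_add, ← Real.exp_add]
              congr 1
              ring
            calc (U * (2 * Real.exp (-(2 * k + 1) * v))) * Real.exp (2 * k * (v + 1))
                = U * 2 * (Real.exp (-(2 * k + 1) * v) * Real.exp (2 * k * (v + 1))) := by ring
              _ = U * 2 * (Real.exp (2 * k) * Real.exp (-(v : ℝ))) := by rw [h5]
              _ = U * (2 * Real.exp (2 * k)) * Real.exp (-(v : ℝ)) := by ring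
    refine (Finset.sum_le_sum h1).trans ?_
    rw [← Finset.mul_sum]
    have h6 := sum_exp_neg_le (B.image (fun ξ => ⌊Real.log (g ξ)⌋₊))
    have h7 : 0 ≤ U * (2 * Real.exp (2 * k)) := by positivity
    calc U * (2 * Real.exp (2 * k)) *
          ∑ v ∈ B.image (fun ξ => ⌊Real.log (g ξ)⌋₊), Real.exp (-(v : ℝ))
        ≤ U * (2 * Real.exp (2 * k)) * 2 := mul_le_mul_of_nonneg_left h6 h7
      _ = U * (4 * Real.exp (2 * k)) := by ring
  calc _ ≤ U * Real.exp (2 * k * v0) + U * (4 * Real.exp (2 * k)) := add_le_add hA hB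
    _ = U * (Real.exp (2 * k * v0) + 4 * Real.exp (2 * k)) := by ring

private theorem card_all (hORT : StORT) (F : Type) [Field F] [Fintype F] (N : ℕ) :
    ((allF (MulChar (TN F N) ℂ)).card : ℝ) = uN F N := by
  have h1 := (hORT F N 1 1 (by simp) (by simp)).1 rfl
  have h2 : ∀ ξ ∈ allF (MulChar (TN F N) ℂ),
      ξ (AdjoinRoot.mk (X ^ (N + 1) : F[X]) 1) *
        (starRingEnd ℂ) (ξ (AdjoinRoot.mk (X ^ (N + 1) : F[X]) 1)) = 1 := by
    intro ξ _
    have h3 : (AdjoinRoot.mk (X ^ (N + 1) : F[X])) 1 = 1 := map_one _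
    rw [h3, MulChar.map_one, map_one, one_mul]
  rw [Finset.sum_congr rfl h2, Finset.sum_const, nsmul_eq_mul, mul_one] at h1
  exact_mod_cast h1

/-- `M2K` without `TRV` -/
theorem hM2K' (hTAI : StTAI) (hORT : StORT) : StM2K := by
  classical
  intro F _ _ k
  obtain ⟨C2, hC2, hT⟩ := hTAI F k
  obtain ⟨c, hc⟩ := pow_unbounded_of_one_lt (5 * Real.exp (2 * k)) (one_lt_two : (1 : ℝ) < 2)
  refine ⟨c + ⌈2 * k * C2⌉₊, ?_⟩
  intro N r χ u hN hr hrN hu
  have hN1 : (1 : ℝ) ≤ (N : ℝ) := by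
    have : (2 : ℝ) ≤ (N : ℝ) := by exact_mod_cast hN
    linarith
  have hN2 : (2 : ℝ) ≤ (N : ℝ) := by exact_mod_cast hN
  have hN0 : (0 : ℝ) < (N : ℝ) := by linarith
  have hlogN : 0 ≤ Real.log N := Real.log_nonneg hN1
  have hcard : ((XiNT F N).card : ℝ) ≤ uN F N := by
    rw [← card_all hORT F N]
    exact_mod_cast Finset.card_filter_le _ _
  have hU : 0 ≤ uN F N := le_trans (Nat.cast_nonneg _) hcard
  have hmain := tail_sum (XiNT F N)
    (fun ξ => ‖(Lp (Hk r N χ ξ) (r.natDegree + N)).eval u‖) k ⌈C2 * Real.log N⌉₊ (uN F N)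
    (fun ξ _ => norm_nonneg _) hcard (by
      intro v hv T hTS hTv
      refine hT N v r χ u hN hr hrN hu ?_ T hTS hTv
      exact le_trans (Nat.le_ceil _) (by exact_mod_cast hv))
  refine hmain.trans (mul_le_mul_of_nonneg_left ?_ hU)
  have h1 : Real.exp (2 * k * (⌈C2 * Real.log N⌉₊ : ℕ)) ≤
      Real.exp (2 * k) * (N : ℝ) ^ ⌈2 * k * C2⌉₊ := by
    have h2 : ((⌈C2 * Real.log N⌉₊ : ℕ) : ℝ) ≤ C2 * Real.log N + 1 :=
      (Nat.ceil_lt_add_one (by positivity)).le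
    have h3 : (2 * k * C2 : ℝ) ≤ (⌈2 * k * C2⌉₊ : ℕ) := Nat.le_ceil _
    calc Real.exp (2 * k * (⌈C2 * Real.log N⌉₊ : ℕ))
        ≤ Real.exp (2 * k + (⌈2 * k * C2⌉₊ : ℕ) * Real.log N) := by
          refine Real.exp_le_exp.2 ?_
          have h4 : (2 * k * (⌈C2 * Real.log N⌉₊ : ℕ) : ℝ) ≤ 2 * k * (C2 * Real.log N + 1) :=
            mul_le_mul_of_nonneg_left h2 (by positivity)
          have h5 : (2 * k * C2) * Real.log N ≤ (⌈2 * k * C2⌉₊ : ℕ) * Real.log N :=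
            mul_le_mul_of_nonneg_right h3 hlogN
          nlinarith [h4, h5]
      _ = Real.exp (2 * k) * (N : ℝ) ^ ⌈2 * k * C2⌉₊ := by
          rw [Real.exp_add, Real.exp_nat_mul, Real.exp_log hN0]
  have h6 : (1 : ℝ) ≤ (N : ℝ) ^ ⌈2 * k * C2⌉₊ := one_le_pow₀ hN1
  have h7 : (2 : ℝ) ^ c ≤ (N : ℝ) ^ c := pow_le_pow_left₀ (by norm_num) hN2 c
  have h8 : 0 < Real.exp (2 * k) := Real.exp_pos _
  calc Real.exp (2 * k * (⌈C2 * Real.log N⌉₊ : ℕ)) + 4 * Real.exp (2 * k)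
      ≤ Real.exp (2 * k) * (N : ℝ) ^ ⌈2 * k * C2⌉₊ +
        4 * Real.exp (2 * k) * (N : ℝ) ^ ⌈2 * k * C2⌉₊ := by
        refine add_le_add h1 ?_
        exact le_mul_of_one_le_right (by positivity) h6
    _ = (5 * Real.exp (2 * k)) * (N : ℝ) ^ ⌈2 * k * C2⌉₊ := by ring
    _ ≤ (N : ℝ) ^ c * (N : ℝ) ^ ⌈2 * k * C2⌉₊ :=
        mul_le_mul_of_nonneg_right (hc.le.trans h7) (by positivity)
    _ = (N : ℝ) ^ (c + ⌈2 * k * C2⌉₊) := by rw [pow_add]

/-- module M2K with the hypotheses of the docstring (`hTRV` is not used) -/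
theorem hM2K (hTAI : StTAI) (_hTRV : StTRV) (hORT : StORT) : StM2K := hM2K' hTAI hORT

end Pool.Agent.Helper57.FC
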